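import Mathlib

set_option autoImplicit false

namespace Pool.Agent.Results.MP_86b878_co.NoTwoElementInfinityDelta

/-- The minimal generators of `S`: its nonzero elements that are not a sum of two nonzero
elements of `S`. -/
def minGens (S : AddSubmonoid ℕ) : Set ℕ :=
  {a | a ∈ S ∧ a ≠ 0 ∧ ∀ b ∈ S, ∀ c ∈ S, a = b + c → b = 0 ∨ c = 0}

/-- The factorizations of `x`: finitely supported multiplicities on the minimal generators with
weighted sum `x`. -/
def Fact (S : AddSubmonoid ℕ) (x : ℕ) : Set (ℕ →₀ ℕ) :=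
  {z | (∀ a ∈ z.support, a ∈ minGens S) ∧ (z.sum fun a n => n * a) = x}

/-- The largest multiplicity of a factorization. -/
def ellInf (z : ℕ →₀ ℕ) : ℕ := z.support.sup z

/-- The set of values of `ellInf` on the factorizations of `x`. -/
def LInf (S : AddSubmonoid ℕ) (x : ℕ) : Set ℕ := {l | ∃ z ∈ Fact S x, ellInf z = l}

/-- The differences of consecutive elements of `L`. -/
def gaps (L : Set ℕ) : Set ℕ :=
  {d | ∃ u ∈ L, ∃ v ∈ L, u < v ∧ (∀ w ∈ L, ¬ (u < w ∧ w < v)) ∧ d = v - u}

/-- The infinity-delta set of `S`. -/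
def DeltaInf (S : AddSubmonoid ℕ) : Set ℕ := {d | ∃ x ∈ S, d ∈ gaps (LInf S x)}

variable {S : AddSubmonoid ℕ}

theorem le_ellInf (z : ℕ →₀ ℕ) (a : ℕ) : z a ≤ ellInf z := by
  by_cases h : a ∈ z.support
  · exact Finset.le_sup (f := z) h
  · rw [Finsupp.notMem_support_iff.1 h]; exact Nat.zero_le _

theorem ellInf_le {z : ℕ →₀ ℕ} {B : ℕ} (h : ∀ a ∈ z.support, z a ≤ B) : ellInf z ≤ B :=
  Finset.sup_le h

theorem exists_eq_ellInf {z : ℕ →₀ ℕ} (h : ellInf z ≠ 0) : ∃ a ∈ z.support, z a = ellInf z := by
  have hne : z.support.Nonempty := by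
    by_contra hc
    rw [Finset.not_nonempty_iff_eq_empty] at hc
    apply h
    unfold ellInf
    rw [hc]; rfl
  obtain ⟨a, ha, hb⟩ := Finset.exists_mem_eq_sup z.support hne z
  exact ⟨a, ha, hb.symm⟩

/-- the value of a vector -/
def val (z : ℕ →₀ ℕ) : ℕ := z.sum fun a n => n * a

theorem val_add (z w : ℕ →₀ ℕ) : val (z + w) = val z + val w := by
  unfold val
  exact Finsupp.sum_add_index' (fun a => by simp) (fun a b c => by ring)

theorem val_single (a n : ℕ) : val (Finsupp.single a n) = n * a := by
  unfold val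
  rw [Finsupp.sum_single_index]; simp

theorem val_mem {z : ℕ →₀ ℕ} (h : ∀ a ∈ z.support, a ∈ S) : val z ∈ S := by
  unfold val Finsupp.sum
  apply AddSubmonoid.sum_mem
  intro a ha
  have := S.nsmul_mem (h a ha) (z a)
  simpa using this

theorem mul_le_val (z : ℕ →₀ ℕ) (a : ℕ) : z a * a ≤ val z := by
  by_cases h : a ∈ z.support
  · exact Finset.single_le_sum (f := fun a => z a * a) (fun _ _ => Nat.zero_le _) h
  · rw [Finsupp.notMem_support_iff.1 h]; simp

theorem decomp (z : ℕ →₀ ℕ) (a : ℕ) : z = Finsupp.single a (z a) + z.erase a := by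
  exact (Finsupp.single_add_erase a z).symm

theorem val_erase (z : ℕ →₀ ℕ) (a : ℕ) : val z = z a * a + val (z.erase a) := by
  conv_lhs => rw [decomp z a]
  rw [val_add, val_single]

/-- setup data: `m` is the least nonzero element of `S`, `2 ≤ m`, and `b` is a minimal generator
different from `m`. -/
structure Setup (S : AddSubmonoid ℕ) (m b : ℕ) : Prop where
  mem : m ∈ S
  two_le : 2 ≤ m
  least : ∀ y ∈ S, y ≠ 0 → m ≤ y
  bgen : b ∈ minGens S
  bne : b ≠ m

theorem Setup.mgen {m b : ℕ} (h : Setup S m b) : m ∈ minGens S := by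
  refine ⟨h.mem, by have := h.two_le; omega, ?_⟩
  intro x hx y hy hxy
  by_contra hc
  push Not at hc
  have h1 := h.least x hx hc.1
  have h2 := h.least y hy hc.2
  have := h.two_le
  omega

theorem Setup.gen_ge {m b : ℕ} (h : Setup S m b) {a : ℕ} (ha : a ∈ minGens S) (hne : a ≠ m) :
    m + 1 ≤ a := by
  have := h.least a ha.1 ha.2.1
  omega

theorem exists_setup (hfin : ((S : Set ℕ)ᶜ).Finite) (h1 : (1 : ℕ) ∉ S) :
    ∃ m b, Setup S m b := by
  classical
  have hne : ∃ y, y ∈ S ∧ y ≠ 0 := by
    by_contra hc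
    push Not at hc
    have : (Set.univ : Set ℕ) ⊆ ((S : Set ℕ)ᶜ) ∪ {0} := by
      intro y _
      by_cases hy : y ∈ S
      · right; exact hc y hy
      · left; exact hy
    exact Set.infinite_univ ((hfin.union (Set.finite_singleton 0)).subset this)
  let m := Nat.find hne
  have hm : m ∈ S ∧ m ≠ 0 := Nat.find_spec hne
  have hmin : ∀ y ∈ S, y ≠ 0 → m ≤ y := fun y hy hy0 => Nat.find_min' hne ⟨hy, hy0⟩
  have hm2 : 2 ≤ m := by
    rcases Nat.lt_or_ge m 2 with h | h
    · exfalso
      have : m = 1 := by have := hm.2; omega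
      rw [this] at hm
      exact h1 hm.1
    · exact h
  have hb : ∃ y, y ∈ S ∧ ¬ m ∣ y := by
    by_contra hc
    push Not at hc
    have hinf : Set.Infinite {y : ℕ | ¬ m ∣ y} := by
      have : Set.range (fun k : ℕ => m * k + 1) ⊆ {y : ℕ | ¬ m ∣ y} := by
        rintro _ ⟨k, rfl⟩
        show ¬ m ∣ m * k + 1
        intro hd
        have := (Nat.dvd_add_right (Dvd.intro k rfl)).1 hd
        have := Nat.dvd_one.1 this
        omega
      refine Set.Infinite.mono this (Set.infinite_range_of_injective ?_)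
      intro a b hab
      simp only [Nat.add_right_cancel_iff] at hab
      exact Nat.eq_of_mul_eq_mul_left (by omega) hab
    apply hinf
    apply hfin.subset
    intro y hy
    simp only [Set.mem_compl_iff, SetLike.mem_coe]
    intro hyS
    exact hy (hc y hyS)
  let b := Nat.find hb
  have hbs : b ∈ S ∧ ¬ m ∣ b := Nat.find_spec hb
  have hbmin : ∀ y < b, ¬ (y ∈ S ∧ ¬ m ∣ y) := fun y hy => Nat.find_min hb hy
  have hb0 : b ≠ 0 := by
    intro h0
    apply hbs.2
    rw [h0]; exact dvd_zero m
  refine ⟨m, b, ⟨hm.1, hm2, hmin, ⟨hbs.1, hb0, ?_⟩, ?_⟩⟩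
  · intro x hx y hy hxy
    by_contra hc
    push Not at hc
    have hx' : m ∣ x := by
      by_contra hd
      exact hbmin x (by omega) ⟨hx, hd⟩
    have hy' : m ∣ y := by
      by_contra hd
      exact hbmin y (by omega) ⟨hy, hd⟩
    apply hbs.2
    rw [hxy]
    exact dvd_add hx' hy'
  · intro h
    apply hbs.2
    rw [h]

/-- multiples `k * m` that factor without `m` -/
def Other (S : AddSubmonoid ℕ) (m k : ℕ) : Prop :=
  ∃ z : ℕ →₀ ℕ, (∀ a ∈ z.support, a ∈ minGens S ∧ a ≠ m) ∧ val z = k * m

/-- 1-norm -/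
def ell1 (z : ℕ →₀ ℕ) : ℕ := z.sum fun _ n => n

theorem ellInf_le_ell1 (z : ℕ →₀ ℕ) : ellInf z ≤ ell1 z := by
  apply ellInf_le
  intro a ha
  exact Finset.single_le_sum (f := fun a => z a) (fun _ _ => Nat.zero_le _) ha

theorem ell1_mul_le {m b : ℕ} (h : Setup S m b) {z : ℕ →₀ ℕ}
    (hz : ∀ a ∈ z.support, a ∈ minGens S ∧ a ≠ m) : ell1 z * (m + 1) ≤ val z := by
  unfold ell1 val Finsupp.sum
  rw [Finset.sum_mul]
  apply Finset.sum_le_sum
  intro a ha
  exact Nat.mul_le_mul_left _ (h.gen_ge (hz a ha).1 (hz a ha).2)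

theorem ell1_lt {m b k : ℕ} (h : Setup S m b) {z : ℕ →₀ ℕ}
    (hz : ∀ a ∈ z.support, a ∈ minGens S ∧ a ≠ m) (hv : val z = k * m) (hk : 1 ≤ k) :
    ell1 z < k := by
  have h1 := ell1_mul_le h hz
  rw [hv] at h1
  by_contra hc
  push Not at hc
  have h2 : k * (m + 1) ≤ ell1 z * (m + 1) := Nat.mul_le_mul_right _ hc
  have h3 : k * (m + 1) = k * m + k := by ring
  omega

theorem ell1_add (z w : ℕ →₀ ℕ) : ell1 (z + w) = ell1 z + ell1 w := by
  unfold ell1
  exact Finsupp.sum_add_index' (fun a => rfl) (fun a b c => rfl)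

theorem ell1_single (a n : ℕ) : ell1 (Finsupp.single a n) = n := by
  unfold ell1
  rw [Finsupp.sum_single_index rfl]

theorem ell1_erase (z : ℕ →₀ ℕ) (a : ℕ) : ell1 z = z a + ell1 (z.erase a) := by
  conv_lhs => rw [decomp z a]
  rw [ell1_add, ell1_single]

theorem zero_of_ellInf {z : ℕ →₀ ℕ} (h : ellInf z = 0) : z = 0 := by
  ext a
  have := le_ellInf z a
  rw [h] at this
  simpa using this

theorem zero_of_ell1 {z : ℕ →₀ ℕ} (h : ell1 z = 0) : z = 0 :=
  zero_of_ellInf (by have := ellInf_le_ell1 z; omega)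

theorem eq_single_of_ell1 {z : ℕ →₀ ℕ} {a : ℕ} (h : ell1 z ≤ z a) :
    z = Finsupp.single a (z a) := by
  have h1 := ell1_erase z a
  have h2 : z.erase a = 0 := zero_of_ell1 (by omega)
  conv_lhs => rw [decomp z a]
  rw [h2, add_zero]

theorem erase_support {z : ℕ →₀ ℕ} {m : ℕ} (hz : ∀ a ∈ z.support, a ∈ minGens S) :
    ∀ a ∈ (z.erase m).support, a ∈ minGens S ∧ a ≠ m := by
  intro a ha
  rw [Finsupp.support_erase, Finset.mem_erase] at ha
  exact ⟨hz a ha.2, ha.1⟩

theorem other_of_fact {m k : ℕ} {z : ℕ →₀ ℕ} (hz : z ∈ Fact S (k * m)) (hk : z m ≤ k) :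
    Other S m (k - z m) := by
  refine ⟨z.erase m, erase_support hz.1, ?_⟩
  have h1 := val_erase z m
  have h2 : val z = k * m := hz.2
  rw [h2] at h1
  have : (k - z m) * m + z m * m = k * m := by
    rw [← Nat.add_mul]; congr 1; omega
  omega

theorem coef_le {m b k : ℕ} (h : Setup S m b) {z : ℕ →₀ ℕ} (hz : z ∈ Fact S (k * m)) :
    z m ≤ k := by
  have h1 := mul_le_val z m
  have h2 : val z = k * m := hz.2
  rw [h2] at h1
  exact Nat.le_of_mul_le_mul_right h1 (by have := h.two_le; omega)

theorem single_mem {m b k : ℕ} (h : Setup S m b) : Finsupp.single m k ∈ Fact S (k * m) := by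
  refine ⟨?_, val_single m k⟩
  intro a ha
  have := Finsupp.support_single_subset ha
  rw [Finset.mem_singleton] at this
  rw [this]; exact h.mgen

theorem ellInf_single (a k : ℕ) : ellInf (Finsupp.single a k) = k := by
  apply le_antisymm
  · apply ellInf_le
    intro c hc
    have := Finsupp.support_single_subset hc
    rw [Finset.mem_singleton] at this
    rw [this]; simp
  · have := le_ellInf (Finsupp.single a k) a
    simpa using this

/-- the data of the least `n` -/
structure Least (S : AddSubmonoid ℕ) (m n : ℕ) : Prop where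
  pos : 1 ≤ n
  other : Other S m n
  min : ∀ k, 1 ≤ k → Other S m k → n ≤ k

theorem exists_least {m b : ℕ} (h : Setup S m b) : ∃ n, Least S m n := by
  classical
  have hex : ∃ k, 1 ≤ k ∧ Other S m k := by
    refine ⟨b, ?_, Finsupp.single b m, ?_, ?_⟩
    · have := h.gen_ge h.bgen h.bne; omega
    · intro a ha
      have := Finsupp.support_single_subset ha
      rw [Finset.mem_singleton] at this
      rw [this]; exact ⟨h.bgen, h.bne⟩
    · rw [val_single]; ring
  exact ⟨Nat.find hex, (Nat.find_spec hex).1, (Nat.find_spec hex).2,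
    fun k hk hO => Nat.find_min' hex ⟨hk, hO⟩⟩

theorem three_le {m b n : ℕ} (h : Setup S m b) (hn : Least S m n) : 3 ≤ n := by
  obtain ⟨z, hz, hv⟩ := hn.other
  have hlt := ell1_lt h hz hv hn.pos
  have hm := h.two_le
  by_contra hc
  have hn1 := hn.pos
  have h12 : n = 1 ∨ n = 2 := by omega
  have hz0 : z ≠ 0 := by
    intro h0
    rw [h0] at hv
    have : val 0 = 0 := by simp [val]
    rw [this] at hv
    rcases h12 with h | h
    · rw [h] at hv; omega
    · rw [h] at hv; omega
  have hell : ell1 z ≠ 0 := fun h0 => hz0 (zero_of_ell1 h0)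
  have hn2 : n = 2 := by omega
  have hell1 : ell1 z = 1 := by omega
  obtain ⟨a, ha⟩ := Finsupp.support_nonempty_iff.2 hz0
  have hza : z a ≠ 0 := Finsupp.mem_support_iff.1 ha
  have hs : z = Finsupp.single a (z a) := eq_single_of_ell1 (by omega)
  have hza1 : z a = 1 := by
    have := ell1_erase z a
    omega
  rw [hza1] at hs
  rw [hs, val_single, hn2] at hv
  obtain ⟨hg, -⟩ := hz a ha
  have := hg.2.2 m h.mem m h.mem (by omega)
  omega

theorem claim1 {m b n : ℕ} (h : Setup S m b) (hn : Least S m n) : n ∈ DeltaInf S := by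
  obtain ⟨y, hy, hyv⟩ := hn.other
  have hylt := ell1_lt h hy hyv hn.pos
  have hm := h.two_le
  have hn1 := hn.pos
  set K := n * (m + 1) + n with hK
  have hKn : 2 * n ≤ K := by
    have : n * 1 ≤ n * (m + 1) := Nat.mul_le_mul_left _ (by omega)
    omega
  refine ⟨K * m, by simpa using S.nsmul_mem h.mem K, K - n, ?_, K, ?_, by omega, ?_, by omega⟩
  · refine ⟨Finsupp.single m (K - n) + y, ⟨?_, ?_⟩, ?_⟩
    · intro a ha
      have := Finsupp.support_add ha
      rw [Finset.mem_union] at this
      rcases this with h1 | h1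
      · have := Finsupp.support_single_subset h1
        rw [Finset.mem_singleton] at this
        rw [this]; exact h.mgen
      · exact (hy a h1).1
    · show val _ = _
      rw [val_add, val_single, hyv, ← Nat.add_mul]
      congr 1; omega
    · apply le_antisymm
      · apply ellInf_le
        intro a _
        rw [Finsupp.add_apply]
        by_cases ham : a = m
        · have : y m = 0 := by
            by_contra hc
            exact (hy m (Finsupp.mem_support_iff.2 hc)).2 rfl
          rw [ham, this]; simp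
        · rw [Finsupp.single_eq_of_ne ham, zero_add]
          have h1 := le_ellInf y a
          have h2 := ellInf_le_ell1 y
          omega
      · have := le_ellInf (Finsupp.single m (K - n) + y) m
        rw [Finsupp.add_apply, Finsupp.single_eq_same] at this
        omega
  · exact ⟨Finsupp.single m K, single_mem h, ellInf_single m K⟩
  · rintro w ⟨z, hz, rfl⟩ ⟨hw1, hw2⟩
    have hzm := coef_le h hz
    by_cases hk : K - z m = 0
    · have := le_ellInf z m
      omega
    · have hO := other_of_fact hz hzm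
      have hle := hn.min _ (by omega) hO
      obtain ⟨c, hc, hcv⟩ := exists_eq_ellInf (z := z) (by omega)
      by_cases hcm : c = m
      · rw [hcm] at hcv; omega
      · have hc1 := h.gen_ge (hz.1 c hc) hcm
        have hmul := mul_le_val z c
        have hzv : val z = K * m := hz.2
        rw [hzv] at hmul
        have h1 : z c * (m + 1) ≤ K * m := le_trans (Nat.mul_le_mul_left _ hc1) hmul
        have h2 : n * (m + 1) + 1 ≤ z c := by omega
        have h3 : (n * (m + 1) + 1) * (m + 1) ≤ K * m :=
          le_trans (Nat.mul_le_mul_right _ h2) h1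
        rw [hK] at h3
        nlinarith

theorem exists_single {m b n : ℕ} (h : Setup S m b) (hn : Least S m n)
    (hall : ∀ d ∈ DeltaInf S, d = 1 ∨ d = n) :
    ∃ a ∈ minGens S, a ≠ m ∧ (n - 1) * a = n * m := by
  classical
  have hn3 := three_le h hn
  obtain ⟨y, hy, hyv⟩ := hn.other
  have hylt := ell1_lt h hy hyv hn.pos
  have hm := h.two_le
  have hyL : ellInf y ∈ LInf S (n * m) := ⟨y, ⟨fun a ha => (hy a ha).1, hyv⟩, rfl⟩
  have hyle : ellInf y ≤ n - 1 := by
    have := ellInf_le_ell1 y
    omega
  set l := Nat.findGreatest (fun c => c ∈ LInf S (n * m)) (n - 1) with hl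
  have hlL : l ∈ LInf S (n * m) := Nat.findGreatest_spec (P := fun c => c ∈ LInf S (n * m)) hyle hyL
  have hlle : l ≤ n - 1 := Nat.findGreatest_le _
  have hd : n - l ∈ DeltaInf S := by
    refine ⟨n * m, by simpa using S.nsmul_mem h.mem n, l, hlL, n,
      ⟨Finsupp.single m n, single_mem h, ellInf_single m n⟩, by omega, ?_, rfl⟩
    rintro w hw ⟨h1, h2⟩
    have := Nat.le_findGreatest (P := fun c => c ∈ LInf S (n * m)) (m := w) (n := n - 1)
      (by omega) hw
    omega
  obtain ⟨z, hz, hzl⟩ := hlL
  have hl0 : l ≠ 0 := by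
    intro h0
    rw [h0] at hzl
    have h1 : z = 0 := zero_of_ellInf hzl
    have h2 : val z = n * m := hz.2
    rw [h1] at h2
    have h3 : val 0 = 0 := by simp [val]
    rw [h3] at h2
    have : 0 < n * m := Nat.mul_pos (by omega) (by omega)
    omega
  have hln : l = n - 1 := by
    rcases hall _ hd with h1 | h1 <;> omega
  have hzm := coef_le h hz
  have hzm0 : z m = 0 := by
    by_contra hc
    by_cases hk : n - z m = 0
    · have := le_ellInf z m
      omega
    · have := hn.min _ (by omega) (other_of_fact hz hzm)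
      omega
  have hz' : ∀ a ∈ z.support, a ∈ minGens S ∧ a ≠ m := by
    intro a ha
    refine ⟨hz.1 a ha, ?_⟩
    intro ham
    rw [ham] at ha
    exact (Finsupp.mem_support_iff.1 ha) hzm0
  have h1 := ell1_lt h hz' hz.2 hn.pos
  obtain ⟨a, ha, hav⟩ := exists_eq_ellInf (z := z) (by omega)
  have hs : z = Finsupp.single a (z a) := eq_single_of_ell1 (by omega)
  have hza : z a = n - 1 := by omega
  refine ⟨a, (hz' a ha).1, (hz' a ha).2, ?_⟩
  have h2 : val z = n * m := hz.2
  rw [hs, hza, val_single] at h2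
  exact h2

theorem two_mem {m b n : ℕ} (h : Setup S m b) (hn : Least S m n)
    (hall : ∀ d ∈ DeltaInf S, d = 1 ∨ d = n) : 2 ∈ DeltaInf S := by
  classical
  have hn3 := three_le h hn
  have hm := h.two_le
  let T : ℕ → Prop := fun N => n ≤ N ∧ ∃ a ∈ minGens S, a ≠ m ∧ (N - 1) * a = N * m
  have hnT : T n := ⟨le_refl n, exists_single h hn hall⟩
  have hb : ∀ N, T N → N ≤ m + 1 := by
    rintro N ⟨h1, a, ha, ham, he⟩
    have ha1 := h.gen_ge ha ham
    have h2 : (N - 1) * (m + 1) ≤ N * m := by
      rw [← he]; exact Nat.mul_le_mul_left _ ha1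
    obtain ⟨M, rfl⟩ : ∃ M, N = M + 1 := ⟨N - 1, by omega⟩
    simp only [Nat.add_sub_cancel] at h2
    nlinarith
  set N := Nat.findGreatest T (m + 1) with hN
  have hNT : T N := Nat.findGreatest_spec (P := T) (hb n hnT) hnT
  have hmax : ∀ M, T M → M ≤ N := fun M hM => Nat.le_findGreatest (P := T) (hb M hM) hM
  obtain ⟨h1, a, ha, ham, he⟩ := hNT
  refine ⟨(N + 1) * m, by simpa using S.nsmul_mem h.mem (N + 1), N - 1, ?_, N + 1,
    ⟨Finsupp.single m (N + 1), single_mem h, ellInf_single m (N + 1)⟩, by omega, ?_, by omega⟩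
  · refine ⟨Finsupp.single a (N - 1) + Finsupp.single m 1, ⟨?_, ?_⟩, ?_⟩
    · intro c hc
      have := Finsupp.support_add hc
      rw [Finset.mem_union] at this
      rcases this with h2 | h2
      · have := Finsupp.support_single_subset h2
        rw [Finset.mem_singleton] at this
        rw [this]; exact ha
      · have := Finsupp.support_single_subset h2
        rw [Finset.mem_singleton] at this
        rw [this]; exact h.mgen
    · show val _ = _
      rw [val_add, val_single, val_single, he]; ring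
    · apply le_antisymm
      · apply ellInf_le
        intro c _
        rw [Finsupp.add_apply, Finsupp.single_apply, Finsupp.single_apply]
        split_ifs with e1 e2 e2
        · exfalso; exact ham (e1.trans e2.symm)
        · omega
        · omega
        · omega
      · have := le_ellInf (Finsupp.single a (N - 1) + Finsupp.single m 1) a
        rw [Finsupp.add_apply, Finsupp.single_eq_same] at this
        omega
  · rintro w ⟨z, hz, rfl⟩ ⟨hw1, hw2⟩
    have hw : ellInf z = N := by omega
    obtain ⟨c, hc, hcv⟩ := exists_eq_ellInf (z := z) (by omega)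
    rw [hw] at hcv
    have hzv : val z = (N + 1) * m := hz.2
    by_cases hcm : c = m
    · rw [hcm] at hcv
      have hO := other_of_fact hz (by omega)
      have := hn.min _ (by omega) hO
      omega
    · have hc1 := h.gen_ge (hz.1 c hc) hcm
      have h2 := val_erase z c
      rw [hzv, hcv] at h2
      have hr : val (z.erase c) ∈ S := val_mem (by
        intro x hx
        rw [Finsupp.support_erase, Finset.mem_erase] at hx
        exact (hz.1 x hx.2).1)
      have h3 : N * (m + 1) ≤ N * c := Nat.mul_le_mul_left _ hc1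
      have h4 : val (z.erase c) < m := by nlinarith
      have h5 : val (z.erase c) = 0 := by
        by_contra hne
        have := h.least _ hr hne
        omega
      have : T (N + 1) := by
        refine ⟨by omega, c, hz.1 c hc, hcm, ?_⟩
        rw [Nat.add_sub_cancel]; omega
      have := hmax _ this
      omega

theorem top_case (h1 : (1 : ℕ) ∈ S) : DeltaInf S = ∅ := by
  have hall : ∀ y, y ∈ S := by
    intro y
    simpa using S.nsmul_mem h1 y
  have key : ∀ x, ∀ z ∈ Fact S x, ellInf z = x := by
    intro x z hz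
    have hsub : ∀ a ∈ z.support, a = 1 := by
      intro a ha
      have hg := hz.1 a ha
      have ha0 := hg.2.1
      have := hg.2.2 1 h1 (a - 1) (hall _) (by omega)
      omega
    have hs : z = Finsupp.single 1 (z 1) := by
      ext c
      rw [Finsupp.single_apply]
      split_ifs with hc
      · rw [← hc]
      · by_contra hne
        exact hc (hsub c (Finsupp.mem_support_iff.2 hne)).symm
    have hv : val z = x := hz.2
    rw [hs, val_single] at hv
    rw [hs, ellInf_single]
    omega
  rw [Set.eq_empty_iff_forall_notMem]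
  rintro d ⟨x, -, u, ⟨z, hz, rfl⟩, v, ⟨w, hw, rfl⟩, hlt, -, -⟩
  rw [key x z hz, key x w hw] at hlt
  exact absurd hlt (lt_irrefl _)

/-- No numerical semigroup has an infinity-delta set with at most two elements, one of which
is `1`. -/
theorem result (D : Set ℕ) (h1D : 1 ∈ D) (hD : D.encard ≤ 2) (S : AddSubmonoid ℕ)
    (hfin : ((S : Set ℕ)ᶜ).Finite) : DeltaInf S ≠ D := by
  intro hEq
  by_cases h1 : (1 : ℕ) ∈ S
  · rw [top_case h1] at hEq
    rw [← hEq] at h1D
    exact h1D
  · obtain ⟨m, b, h⟩ := exists_setup hfin h1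
    obtain ⟨n, hn⟩ := exists_least h
    have hn3 := three_le h hn
    have hnD := claim1 h hn
    have hsub : ({1, n} : Set ℕ) ⊆ D := by
      intro x hx
      rcases hx with rfl | hx
      · exact h1D
      · rw [Set.mem_singleton_iff] at hx
        rw [hx, ← hEq]; exact hnD
    have hcard : ({1, n} : Set ℕ).encard = 2 := Set.encard_pair (by omega)
    have hDeq : ({1, n} : Set ℕ) = D :=
      (Set.toFinite ({1, n} : Set ℕ)).eq_of_subset_of_encard_le hsub (by rw [hcard]; exact hD)
    have hall : ∀ d ∈ DeltaInf S, d = 1 ∨ d = n := by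
      intro d hd
      rw [hEq, ← hDeq] at hd
      simpa using hd
    have h2 := hall 2 (two_mem h hn hall)
    omega

end Pool.Agent.Results.MP_86b878_co.NoTwoElementInfinityDelta
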